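import Pool.Agent.Work.MP_935c4d_an.Inter

namespace Pool.Agent.Results.MP_935c4d_an.InteriorLevelFails

open MeasureTheory Set Filter Topology

/-- The real vector space of Lipschitz functions on the circle `ℝ/ℤ`. -/
def lipSubmodule : Submodule ℝ (UnitAddCircle → ℝ) where
  carrier := {g | ∃ K : NNReal, LipschitzWith K g}
  add_mem' := by
    rintro f g ⟨K, hK⟩ ⟨L, hL⟩
    exact ⟨K + L, hK.add hL⟩
  zero_mem' := ⟨0, LipschitzWith.const 0⟩
  smul_mem' := by
    rintro c f ⟨K, hK⟩
    refine ⟨‖c‖₊ * K, ?_⟩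
    exact (lipschitzWith_smul c).comp hK

/-- `Lip(𝕊¹)`, to be equipped with the norm `sup |g| + sup |g x - g y| / |x - y|`. -/
def LipS1 : Type := lipSubmodule

noncomputable instance : AddCommGroup LipS1 := inferInstanceAs (AddCommGroup lipSubmodule)
noncomputable instance : Module ℝ LipS1 := inferInstanceAs (Module ℝ lipSubmodule)
instance : CoeFun LipS1 (fun _ => UnitAddCircle → ℝ) := ⟨fun g => g.1⟩

/-- the sup norm -/
noncomputable def supPart (g : LipS1) : ℝ := ⨆ x : UnitAddCircle, |g x|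

/-- the best Lipschitz constant -/
noncomputable def lipPart (g : LipS1) : ℝ :=
  ⨆ p : {p : UnitAddCircle × UnitAddCircle // p.1 ≠ p.2}, |g p.1.1 - g p.1.2| / dist p.1.1 p.1.2

noncomputable instance : Norm LipS1 := ⟨fun g => supPart g + lipPart g⟩

lemma norm_def (g : LipS1) : ‖g‖ = supPart g + lipPart g := rfl

@[simp] lemma coe_add (f g : LipS1) (x : UnitAddCircle) : (f + g) x = f x + g x := rfl
@[simp] lemma coe_sub (f g : LipS1) (x : UnitAddCircle) : (f - g) x = f x - g x := rfl
@[simp] lemma coe_zero (x : UnitAddCircle) : (0 : LipS1) x = 0 := rfl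
@[simp] lemma coe_smul (c : ℝ) (g : LipS1) (x : UnitAddCircle) : (c • g) x = c * g x := rfl

lemma ext {f g : LipS1} (h : ∀ x, f x = g x) : f = g := Subtype.ext (funext h)

lemma dist_le_half (x y : UnitAddCircle) : dist x y ≤ 1 / 2 := by
  rw [dist_eq_norm]
  have := AddCircle.norm_le_half_period (1 : ℝ) (x := x - y) one_ne_zero
  simpa using this

lemma exists_lip (g : LipS1) : ∃ K : NNReal, ∀ x y, |g x - g y| ≤ K * dist x y := by
  obtain ⟨K, hK⟩ := g.2
  refine ⟨K, fun x y => ?_⟩
  have := hK.dist_le_mul x y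
  rwa [Real.dist_eq] at this

lemma bdd_sup (g : LipS1) : BddAbove (range fun x : UnitAddCircle => |g x|) := by
  obtain ⟨K, hK⟩ := exists_lip g
  refine ⟨|g 0| + K * (1 / 2), ?_⟩
  rintro _ ⟨x, rfl⟩
  have h1 := hK x 0
  have h2 := dist_le_half x 0
  have h3 : |g x| ≤ |g x - g 0| + |g 0| := by
    have := abs_add_le (g x - g 0) (g 0)
    simpa using this
  have h4 : (K : ℝ) * dist x 0 ≤ K * (1 / 2) := mul_le_mul_of_nonneg_left h2 K.2
  show |g x| ≤ _
  linarith

lemma bdd_lip (g : LipS1) : BddAbove (range fun p : {p : UnitAddCircle × UnitAddCircle //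
    p.1 ≠ p.2} => |g p.1.1 - g p.1.2| / dist p.1.1 p.1.2) := by
  obtain ⟨K, hK⟩ := exists_lip g
  refine ⟨K, ?_⟩
  rintro _ ⟨⟨p, hp⟩, rfl⟩
  show |g p.1 - g p.2| / dist p.1 p.2 ≤ _
  rw [div_le_iff₀ (dist_pos.2 hp)]
  exact hK _ _

lemma abs_le_sup (g : LipS1) (x : UnitAddCircle) : |g x| ≤ supPart g :=
  le_ciSup (bdd_sup g) x

lemma lip_le (g : LipS1) (x y : UnitAddCircle) : |g x - g y| ≤ lipPart g * dist x y := by
  by_cases h : x = y
  · subst h; simp
  · have := le_ciSup (bdd_lip g) ⟨(x, y), h⟩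
    rw [← div_le_iff₀ (dist_pos.2 h)]
    exact this

lemma supPart_nonneg (g : LipS1) : 0 ≤ supPart g := Real.iSup_nonneg fun _ => abs_nonneg _
lemma lipPart_nonneg (g : LipS1) : 0 ≤ lipPart g :=
  Real.iSup_nonneg fun _ => div_nonneg (abs_nonneg _) dist_nonneg

lemma supPart_le (g : LipS1) (c : ℝ) (h : ∀ x, |g x| ≤ c) : supPart g ≤ c := ciSup_le h

lemma lipPart_le (g : LipS1) (c : ℝ) (hc : 0 ≤ c) (h : ∀ x y, |g x - g y| ≤ c * dist x y) :
    lipPart g ≤ c := by
  refine Real.iSup_le ?_ hc
  rintro ⟨p, hp⟩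
  rw [div_le_iff₀ (dist_pos.2 hp)]
  exact h _ _

lemma core : NormedSpace.Core ℝ LipS1 where
  norm_nonneg := fun g => add_nonneg (supPart_nonneg g) (lipPart_nonneg g)
  norm_smul := by
    intro c g
    rw [norm_def, norm_def, mul_add]
    congr 1
    · unfold supPart
      rw [Real.mul_iSup_of_nonneg (norm_nonneg c)]
      congr 1
      funext x
      rw [coe_smul, abs_mul, Real.norm_eq_abs]
    · unfold lipPart
      rw [Real.mul_iSup_of_nonneg (norm_nonneg c)]
      congr 1
      funext p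
      rw [coe_smul, coe_smul, ← mul_sub, abs_mul, Real.norm_eq_abs, mul_div_assoc]
  norm_triangle := by
    intro f g
    rw [norm_def, norm_def, norm_def]
    have h1 : supPart (f + g) ≤ supPart f + supPart g := by
      refine supPart_le _ _ fun x => ?_
      rw [coe_add]
      exact (abs_add_le _ _).trans (add_le_add (abs_le_sup f x) (abs_le_sup g x))
    have h2 : lipPart (f + g) ≤ lipPart f + lipPart g := by
      refine lipPart_le _ _ (add_nonneg (lipPart_nonneg f) (lipPart_nonneg g)) fun x y => ?_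
      rw [coe_add, coe_add, add_mul]
      have e : f x + g x - (f y + g y) = (f x - f y) + (g x - g y) := by ring
      rw [e]
      exact (abs_add_le _ _).trans (add_le_add (lip_le f x y) (lip_le g x y))
    linarith
  norm_eq_zero_iff := by
    intro g
    constructor
    · intro h
      apply ext
      intro x
      have h1 := abs_le_sup g x
      have h2 := lipPart_nonneg g
      rw [norm_def] at h
      have h3 : |g x| ≤ 0 := by linarith
      simpa using h3
    · rintro rfl
      rw [norm_def]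
      have h1 : supPart 0 ≤ 0 := supPart_le _ _ fun x => by simp
      have h2 : lipPart 0 ≤ 0 := lipPart_le _ _ le_rfl fun x y => by simp
      have h3 := supPart_nonneg 0
      have h4 := lipPart_nonneg 0
      linarith

noncomputable instance : NormedAddCommGroup LipS1 := NormedAddCommGroup.ofCore core
noncomputable instance : NormedSpace ℝ LipS1 := NormedSpace.ofCore core

/-- `Lip(𝕊¹)` is a Banach space. -/
instance : CompleteSpace LipS1 := by
  refine Metric.complete_of_cauchySeq_tendsto fun u hu => ?_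
  have hpt : ∀ (f : LipS1) (x : UnitAddCircle), |f x| ≤ ‖f‖ := fun f x => by
    have := abs_le_sup f x
    have := lipPart_nonneg f
    rw [norm_def]; linarith
  have hlp : ∀ (f : LipS1) (x y : UnitAddCircle), |f x - f y| ≤ ‖f‖ * dist x y := fun f x y => by
    have h1 := lip_le f x y
    have h2 := supPart_nonneg f
    rw [norm_def, add_mul]
    have := mul_nonneg h2 (dist_nonneg (x := x) (y := y))
    linarith
  have hc : ∀ x, ∃ l, Tendsto (fun n => u n x) atTop (𝓝 l) := by
    intro x
    apply cauchySeq_tendsto_of_complete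
    rw [Metric.cauchySeq_iff'] at hu ⊢
    intro ε hε
    obtain ⟨N, hN⟩ := hu ε hε
    refine ⟨N, fun n hn => lt_of_le_of_lt ?_ (hN n hn)⟩
    rw [Real.dist_eq, dist_eq_norm, ← coe_sub]
    exact hpt _ x
  choose l hl using hc
  have hcl : ∀ ε > 0, ∃ N, ∀ n ≥ N, (∀ x, |u n x - l x| ≤ ε) ∧
      ∀ x y, |(u n x - l x) - (u n y - l y)| ≤ ε * dist x y := by
    intro ε hε
    rw [Metric.cauchySeq_iff] at hu
    obtain ⟨N, hN⟩ := hu ε hε
    refine ⟨N, fun n hn => ⟨fun x => ?_, fun x y => ?_⟩⟩
    · have h1 : Tendsto (fun m => |u n x - u m x|) atTop (𝓝 |u n x - l x|) :=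
        (tendsto_const_nhds.sub (hl x)).abs
      refine le_of_tendsto h1 (eventually_atTop.2 ⟨N, fun m hm => ?_⟩)
      rw [← coe_sub]
      refine (hpt _ x).trans ?_
      rw [← dist_eq_norm]
      exact (hN n hn m hm).le
    · have h1 : Tendsto (fun m => |(u n x - u m x) - (u n y - u m y)|) atTop
          (𝓝 |(u n x - l x) - (u n y - l y)|) :=
        ((tendsto_const_nhds.sub (hl x)).sub (tendsto_const_nhds.sub (hl y))).abs
      refine le_of_tendsto h1 (eventually_atTop.2 ⟨N, fun m hm => ?_⟩)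
      rw [← coe_sub, ← coe_sub]
      refine (hlp _ x y).trans ?_
      rw [← dist_eq_norm]
      exact mul_le_mul_of_nonneg_right (hN n hn m hm).le dist_nonneg
  obtain ⟨N, hN⟩ := hcl 1 one_pos
  obtain ⟨K, hK⟩ := exists_lip (u N)
  let L : LipS1 := ⟨l, K + 1, by
    refine LipschitzWith.of_dist_le_mul fun x y => ?_
    rw [Real.dist_eq]
    have h1 := (hN N le_rfl).2 x y
    have h2 := hK x y
    have e : l x - l y = (u N x - u N y) - ((u N x - l x) - (u N y - l y)) := by ring
    rw [e]
    refine (abs_sub _ _).trans ?_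
    push_cast
    linarith⟩
  refine ⟨L, ?_⟩
  rw [Metric.tendsto_atTop]
  intro ε hε
  obtain ⟨M, hM⟩ := hcl (ε / 3) (by positivity)
  refine ⟨M, fun n hn => ?_⟩
  rw [dist_eq_norm, norm_def]
  have h1 : supPart (u n - L) ≤ ε / 3 := supPart_le _ _ fun x => (hM n hn).1 x
  have h2 : lipPart (u n - L) ≤ ε / 3 :=
    lipPart_le _ _ (by positivity) fun x y => (hM n hn).2 x y
  linarith

/-- The Weierstrass-type function `W_g^{α,b}(x) = ∑ b^{-αk} g(b^k x)` on the circle. -/
noncomputable def W (b : ℕ) (α : ℝ) (g : LipS1) (x : UnitAddCircle) : ℝ :=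
  ∑' k : ℕ, (b : ℝ) ^ (-(α * k)) * g ((b ^ k) • x)

/-- Shy sets: `A` is contained in a Borel set `B` all of whose translates are null for some Borel
measure `μ` that is positive and finite on some compact set. -/
def Shy {X : Type} [NormedAddCommGroup X] (A : Set X) : Prop :=
  ∃ (μ : @Measure X (borel X)) (B : Set X), A ⊆ B ∧ MeasurableSet[borel X] B ∧
    (∃ K : Set X, IsCompact K ∧ 0 < μ K ∧ μ K < ⊤) ∧ ∀ x : X, μ ((fun z => x + z) '' B) = 0

/-- Prevalent sets: the complement is shy. -/
def Prevalent {X : Type} [NormedAddCommGroup X] (A : Set X) : Prop := Shy Aᶜ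

lemma not_shy {X : Type} [NormedAddCommGroup X] {A U : Set X} (hU : IsOpen U) (hne : U.Nonempty)
    (hUA : U ⊆ A) : ¬ Shy A := by
  rintro ⟨μ, B, hAB, -, ⟨K, hK, hK0, -⟩, hB⟩
  obtain ⟨u, hu⟩ := hne
  have hcov : K ⊆ ⋃ x : X, (fun z => x + z) '' U := by
    intro k _
    rw [mem_iUnion]
    exact ⟨k - u, u, hu, by simp⟩
  obtain ⟨t, ht⟩ := hK.elim_finite_subcover (fun x : X => (fun z => x + z) '' U)
    (fun x => (Homeomorph.addLeft x).isOpenMap U hU) hcov
  have h0 : μ K ≤ 0 := by
    calc μ K ≤ μ (⋃ x ∈ t, (fun z => x + z) '' B) := by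
          refine measure_mono (ht.trans ?_)
          exact iUnion₂_mono fun x _ => image_mono (hUA.trans hAB)
      _ ≤ ∑ x ∈ t, μ ((fun z => x + z) '' B) := measure_biUnion_finset_le _ _
      _ = 0 := Finset.sum_eq_zero fun x _ => hB x
  exact absurd hK0 (not_lt.2 h0)

/-- the tent function: distance to the nearest integer -/
noncomputable def tent : LipS1 := ⟨fun x => ‖x‖, 1, lipschitzWith_one_norm⟩

lemma tent_apply {x : ℝ} (h : |x| ≤ 1 / 2) : tent (x : UnitAddCircle) = |x| := by
  show ‖(x : UnitAddCircle)‖ = |x|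
  rw [AddCircle.norm_coe_eq_abs_iff (1 : ℝ) one_ne_zero]
  simpa using h

lemma dist_coe_le (x y : ℝ) : dist (x : UnitAddCircle) (y : UnitAddCircle) ≤ |x - y| := by
  rw [dist_eq_norm, ← QuotientAddGroup.mk_sub]
  exact (QuotientAddGroup.norm_mk_le_norm (m := x - y)).trans (le_of_eq (Real.norm_eq_abs _))

open Pool.Agent.Work.MP_935c4d_an in
lemma good_of_near (g : LipS1) (hg : ‖g - tent‖ < 1 / 20) :
    Good (fun x : ℝ => g (x : UnitAddCircle)) := by
  have hl : lipPart (g - tent) < 1 / 20 := by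
    have := supPart_nonneg (g - tent)
    rw [norm_def] at hg
    linarith
  have hd : ∀ x y : UnitAddCircle, |(g x - g y) - (tent x - tent y)| ≤ 1 / 20 * dist x y := by
    intro x y
    have h1 := lip_le (g - tent) x y
    rw [coe_sub, coe_sub] at h1
    have h2 : lipPart (g - tent) * dist x y ≤ 1 / 20 * dist x y :=
      mul_le_mul_of_nonneg_right hl.le dist_nonneg
    have e : g x - tent x - (g y - tent y) = (g x - g y) - (tent x - tent y) := by ring
    rw [e] at h1
    exact h1.trans h2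
  have ht : ∀ x y : UnitAddCircle, |tent x - tent y| ≤ dist x y := by
    intro x y
    rw [dist_eq_norm]
    exact abs_norm_sub_norm_le x y
  have hgl : ∀ x y : UnitAddCircle, |g x - g y| ≤ 21 / 20 * dist x y := by
    intro x y
    have h1 := hd x y
    have h2 := ht x y
    have e : g x - g y = ((g x - g y) - (tent x - tent y)) + (tent x - tent y) := by ring
    rw [e]
    refine (abs_add_le _ _).trans ?_
    linarith
  have hup : ∀ x y : ℝ, 0 ≤ x → x ≤ y → y ≤ 1 / 2 → ∀ s : ℝ, (s = 1 ∨ s = -1) →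
      19 / 20 * (y - x) ≤ g ((s * y : ℝ) : UnitAddCircle) - g ((s * x : ℝ) : UnitAddCircle) := by
    intro x y hx hxy hy s hs
    have h1 := hd ((s * y : ℝ) : UnitAddCircle) ((s * x : ℝ) : UnitAddCircle)
    have h2 := dist_coe_le (s * y) (s * x)
    have hsa : |s| = 1 := by rcases hs with rfl | rfl <;> simp
    have e1 : |s * y - s * x| = y - x := by
      rw [← mul_sub, abs_mul, hsa, one_mul, abs_of_nonneg (by linarith)]
    have e2 : |s * y| = y := by rw [abs_mul, hsa, one_mul, abs_of_nonneg (by linarith)]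
    have e3 : |s * x| = x := by rw [abs_mul, hsa, one_mul, abs_of_nonneg (by linarith)]
    rw [tent_apply (by rw [e2]; linarith), tent_apply (by rw [e3]; linarith), e2, e3] at h1
    rw [e1] at h2
    have h3 := (abs_le.1 h1).1
    linarith
  refine ⟨?_, ?_, ?_, ?_, ?_⟩
  · intro x
    exact congrArg g.1 (AddCircle.coe_add_period 1 x)
  · intro x y
    have h1 := hgl (x : UnitAddCircle) (y : UnitAddCircle)
    have h2 := dist_coe_le x y
    linarith
  · intro x y
    have h1 := hgl (x : UnitAddCircle) (y : UnitAddCircle)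
    have h2 := dist_le_half (x : UnitAddCircle) (y : UnitAddCircle)
    linarith
  · intro x y hx hxy hy
    have := hup x y hx hxy hy 1 (Or.inl rfl)
    simpa using this
  · intro x y hx hxy hy
    have := hup x y hx hxy hy (-1) (Or.inr rfl)
    simpa using this

open Pool.Agent.Work.MP_935c4d_an in
lemma W_coe (b : ℕ) (α : ℝ) (g : LipS1) (x : ℝ) :
    W b α g (x : UnitAddCircle) =
      V ((b : ℝ) ^ (-α)) b (fun x : ℝ => g (x : UnitAddCircle)) x := by
  unfold W V
  refine tsum_congr fun k => ?_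
  congr 1
  · rw [← Real.rpow_natCast, ← Real.rpow_mul (by positivity)]
    congr 1
    ring
  · rw [← AddCircle.coe_nsmul, nsmul_eq_mul]
    push_cast
    rfl

open Pool.Agent.Work.MP_935c4d_an in
lemma two_points (b : ℕ) (α : ℝ) (hp : Par b ((b : ℝ) ^ (-α))) (g : LipS1)
    (hg : ‖g - tent‖ < 1 / 20) :
    ∃ y ∈ interior (range (W b α g)), (W b α g ⁻¹' {y}).ncard = 2 := by
  have hG := good_of_near g hg
  obtain ⟨x, y, hx0, hx1, hy0, hy1, hxy, hlo, hhi, hux, huy⟩ := two_crossings hG hp
  set lam := (b : ℝ) ^ (-α) with hlam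
  set G : ℝ → ℝ := fun x : ℝ => g (x : UnitAddCircle) with hGdef
  have hW : ∀ t : ℝ, W b α g (t : UnitAddCircle) = V lam b G t := W_coe b α g
  refine ⟨V lam b G x, ?_, ?_⟩
  · have hc := continuous_V (b := b) hG hp.pos.le hp.lt_one
    have h1 := intermediate_value_Icc (a := (0 : ℝ)) (b := 1 / 2) (by norm_num) hc.continuousOn
    rw [mem_interior]
    refine ⟨Ioo (V lam b G 0) (V lam b G (1 / 2)), ?_, isOpen_Ioo, hlo, hhi⟩
    intro z hz
    obtain ⟨t, -, ht⟩ := h1 (Ioo_subset_Icc_self hz)
    exact ⟨(t : UnitAddCircle), by rw [hW, ht]⟩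
  · have hset : W b α g ⁻¹' {V lam b G x} =
        {(x : UnitAddCircle), ((-y : ℝ) : UnitAddCircle)} := by
      ext z
      simp only [mem_preimage, mem_singleton_iff, mem_insert_iff]
      constructor
      · intro hz
        have hz2 : ∃ t : ℝ, -(1 / 2) ≤ t ∧ t ≤ 1 / 2 ∧ (t : UnitAddCircle) = z := by
          have h1 := AddCircle.coe_image_Icc_eq (1 : ℝ) (-(1 / 2) : ℝ)
          have h2 : z ∈ (QuotientAddGroup.mk '' Icc (-(1 / 2) : ℝ) (-(1 / 2) + 1) :
              Set UnitAddCircle) := by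
            rw [h1]; trivial
          obtain ⟨t, ht, htz⟩ := h2
          exact ⟨t, ht.1, by linarith [ht.2], htz⟩
        obtain ⟨t, ht1, ht2, rfl⟩ := hz2
        rw [hW] at hz
        rcases le_total 0 t with h0 | h0
        · left
          rw [hux t h0 ht2 hz]
        · right
          have := huy (-t) (by linarith) (by linarith) (by rw [neg_neg]; exact hz)
          rw [← this, neg_neg]
      · rintro (rfl | rfl)
        · exact hW x
        · rw [hW, hxy]
    rw [hset, ncard_pair]
    intro h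
    have h1 := (AddCircle.coe_eq_coe_iff_of_mem_Ico (p := (1 : ℝ)) (a := (-(1 / 2) : ℝ))
      (x := x) (y := -y) ⟨by linarith, by linarith⟩ ⟨by linarith, by linarith⟩).1 h
    linarith

/-- **Q1 is false.** For every integer `b ≥ 40` and every `α` in the explicit subinterval
`[1 - log (5/4) / log b, 1 - log (6/5) / log b]` of `(0,1)` there is a nonempty open set of
`g ∈ Lip(𝕊¹)` having an interior level `y` attained at exactly two points; so the set of `g` for
which all interior level sets have Hausdorff dimension `1 - α` is not prevalent. -/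
theorem result (b : ℕ) (hb : 40 ≤ b) (α : ℝ)
    (h₀ : 1 - Real.log (5 / 4) / Real.log b ≤ α) (h₁ : α ≤ 1 - Real.log (6 / 5) / Real.log b) :
    0 < α ∧ α < 1 ∧
    (∃ U : Set LipS1, IsOpen U ∧ U.Nonempty ∧ ∀ g ∈ U,
      ∃ y ∈ interior (range (W b α g)), (W b α g ⁻¹' {y}).ncard = 2) ∧
    ¬ Prevalent {g : LipS1 | ∀ y ∈ interior (range (W b α g)),
      dimH (W b α g ⁻¹' {y}) = ENNReal.ofReal (1 - α)} := by
  have hbR : (40 : ℝ) ≤ b := by exact_mod_cast hb
  have hbpos : (0 : ℝ) < b := by linarith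
  have hlogb : 0 < Real.log b := Real.log_pos (by linarith)
  have hl54 : 0 < Real.log (5 / 4) := Real.log_pos (by norm_num)
  have hl65 : 0 < Real.log (6 / 5) := Real.log_pos (by norm_num)
  have hl54b : Real.log (5 / 4) < Real.log b := Real.log_lt_log (by norm_num) (by linarith)
  have hα0 : 0 < α := by
    have : Real.log (5 / 4) / Real.log b < 1 := by rw [div_lt_one hlogb]; exact hl54b
    linarith
  have hα1 : α < 1 := by
    have : 0 < Real.log (6 / 5) / Real.log b := by positivity
    linarith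
  have hmul : (b : ℝ) ^ (-α) * b = (b : ℝ) ^ (1 - α) := by
    rw [show (1 - α) = -α + 1 by ring, Real.rpow_add hbpos, Real.rpow_one]
  have hlo : 6 / 5 ≤ (b : ℝ) ^ (-α) * b := by
    rw [hmul, Real.rpow_def_of_pos hbpos, ← Real.log_le_iff_le_exp (by norm_num)]
    have : Real.log (6 / 5) / Real.log b ≤ 1 - α := by linarith
    rw [div_le_iff₀ hlogb] at this
    linarith
  have hhi : (b : ℝ) ^ (-α) * b ≤ 5 / 4 := by
    rw [hmul, Real.rpow_def_of_pos hbpos, ← Real.le_log_iff_exp_le (by norm_num)]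
    have : 1 - α ≤ Real.log (5 / 4) / Real.log b := by linarith
    rw [le_div_iff₀ hlogb] at this
    linarith
  have hp : Pool.Agent.Work.MP_935c4d_an.Par b ((b : ℝ) ^ (-α)) := ⟨hb, hlo, hhi⟩
  have hU : IsOpen (Metric.ball tent (1 / 20)) := Metric.isOpen_ball
  have hne : (Metric.ball tent (1 / 20)).Nonempty := ⟨tent, Metric.mem_ball_self (by norm_num)⟩
  have hprop : ∀ g ∈ Metric.ball tent (1 / 20),
      ∃ y ∈ interior (range (W b α g)), (W b α g ⁻¹' {y}).ncard = 2 := by
    intro g hg
    rw [Metric.mem_ball, dist_eq_norm] at hg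
    exact two_points b α hp g hg
  refine ⟨hα0, hα1, ⟨_, hU, hne, hprop⟩, not_shy hU hne ?_⟩
  intro g hg
  obtain ⟨y, hy, hcard⟩ := hprop g hg
  rw [mem_compl_iff, mem_ofPred_eq]
  intro hall
  have h1 := hall y hy
  have hfin : (W b α g ⁻¹' {y}).Finite := Set.finite_of_ncard_ne_zero (by rw [hcard]; norm_num)
  rw [hfin.dimH_zero] at h1
  have h2 := ENNReal.ofReal_eq_zero.1 h1.symm
  linarith

end Pool.Agent.Results.MP_935c4d_an.InteriorLevelFails
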